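import Mathlib
import Pool.Agent.Work.MP_4f56fb_lc.Trans

/-!
# The Diophantine problem for `⟨ℕ_{>0}; +, x * 2 ^ y, ≤, 1⟩` is undecidable
-/

set_option autoImplicit false

namespace Pool.Agent.Results.MP_4f56fb_lc.DiophantineProblem

/-- Terms built from variables `x_0, x_1, ...` and the constant `1` using `+` and
`f (x, y) = x * 2 ^ y`. -/
inductive Tm : Type
  | one : Tm
  | var : ℕ → Tm
  | add : Tm → Tm → Tm
  | sh : Tm → Tm → Tm

/-- The value of a term under an assignment of the variables. -/
def Tm.eval (v : ℕ → ℕ) : Tm → ℕ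
  | Tm.one => 1
  | Tm.var n => v n
  | Tm.add s t => Tm.eval v s + Tm.eval v t
  | Tm.sh s t => Tm.eval v s * 2 ^ Tm.eval v t

/-- The Gödel number of a term. -/
def Tm.code : Tm → ℕ
  | Tm.one => 0
  | Tm.var n => 3 * n + 1
  | Tm.add s t => 3 * Nat.pair s.code t.code + 2
  | Tm.sh s t => 3 * Nat.pair s.code t.code + 3

/-- The term with a given Gödel number. -/
def Tm.ofCode : ℕ → Tm
  | 0 => Tm.one
  | m + 1 =>
    if m % 3 = 0 then Tm.var (m / 3)
    else
      have h1 : (m / 3).unpair.1 < m + 1 :=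
        Nat.lt_succ_of_le ((Nat.unpair_left_le _).trans (Nat.div_le_self _ _))
      have h2 : (m / 3).unpair.2 < m + 1 :=
        Nat.lt_succ_of_le ((Nat.unpair_right_le _).trans (Nat.div_le_self _ _))
      if m % 3 = 1 then Tm.add (Tm.ofCode (m / 3).unpair.1) (Tm.ofCode (m / 3).unpair.2)
      else Tm.sh (Tm.ofCode (m / 3).unpair.1) (Tm.ofCode (m / 3).unpair.2)

theorem Tm.ofCode_code : ∀ t : Tm, Tm.ofCode t.code = t
  | Tm.one => by simp [Tm.code, Tm.ofCode]
  | Tm.var n => by
    have h1 : (3 * n) % 3 = 0 := by omega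
    have h2 : (3 * n) / 3 = n := by omega
    rw [Tm.code, Tm.ofCode]; simp only [h1, h2, if_true]
  | Tm.add s t => by
    have h1 : (3 * Nat.pair s.code t.code + 1) % 3 = 1 := by omega
    have h2 : (3 * Nat.pair s.code t.code + 1) / 3 = Nat.pair s.code t.code := by omega
    rw [Tm.code, Tm.ofCode]
    simp only [h1, h2, Nat.unpair_pair, Tm.ofCode_code s, Tm.ofCode_code t]
    simp
  | Tm.sh s t => by
    have h1 : (3 * Nat.pair s.code t.code + 2) % 3 = 2 := by omega
    have h2 : (3 * Nat.pair s.code t.code + 2) / 3 = Nat.pair s.code t.code := by omega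
    rw [Tm.code, Tm.ofCode]
    simp only [h1, h2, Nat.unpair_pair, Tm.ofCode_code s, Tm.ofCode_code t]
    simp

theorem Tm.code_ofCode (m : ℕ) : (Tm.ofCode m).code = m := by
  induction m using Nat.strong_induction_on with
  | _ m ih =>
    rcases m with _ | m
    · simp [Tm.ofCode, Tm.code]
    · have h1 : (m / 3).unpair.1 < m + 1 :=
        Nat.lt_succ_of_le ((Nat.unpair_left_le _).trans (Nat.div_le_self _ _))
      have h2 : (m / 3).unpair.2 < m + 1 :=
        Nat.lt_succ_of_le ((Nat.unpair_right_le _).trans (Nat.div_le_self _ _))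
      rw [Tm.ofCode]
      by_cases c0 : m % 3 = 0
      · rw [if_pos c0, Tm.code]; omega
      · rw [if_neg c0]
        by_cases c1 : m % 3 = 1
        · simp only [c1, if_true, Tm.code, ih _ h1, ih _ h2, Nat.pair_unpair]; omega
        · simp only [c1, if_false, Tm.code, ih _ h1, ih _ h2, Nat.pair_unpair]; omega

/-- Terms are in bijection with their Gödel numbers. -/
def Tm.equivNat : Tm ≃ ℕ := ⟨Tm.code, Tm.ofCode, Tm.ofCode_code, Tm.code_ofCode⟩

/-- Algorithms act on terms through their Gödel numbers. -/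
instance : Primcodable Tm := Primcodable.ofEquiv ℕ Tm.equivNat

/-- The finite system `E` of equations between terms has a solution in positive integers. -/
def Solvable (E : List (Tm × Tm)) : Prop :=
  ∃ v : ℕ → ℕ, (∀ n, 0 < v n) ∧ ∀ e ∈ E, Tm.eval v e.1 = Tm.eval v e.2

open Pool.Agent.Work.MP_4f56fb_lc

theorem primrec_code : Primrec Tm.code := Primrec.of_equiv (e := Tm.equivNat)

theorem primrec_ofCode : Primrec Tm.ofCode := Primrec.of_equiv_symm (e := Tm.equivNat)

theorem primrec_var : Primrec Tm.var := by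
  have h : Primrec (fun n : ℕ => Tm.ofCode (3 * n + 1)) :=
    primrec_ofCode.comp (Primrec.succ.comp (Primrec.nat_mul.comp (Primrec.const 3) Primrec.id))
  refine h.of_eq (fun n => ?_)
  exact Tm.ofCode_code (Tm.var n)

theorem primrec_add : Primrec₂ Tm.add := by
  have h : Primrec₂ (fun s t : Tm => Tm.ofCode (3 * Nat.pair s.code t.code + 2)) :=
    primrec_ofCode.comp (Primrec.nat_add.comp (Primrec.nat_mul.comp (Primrec.const 3)
      (Primrec₂.natPair.comp (primrec_code.comp Primrec.fst) (primrec_code.comp Primrec.snd)))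
      (Primrec.const 2))
  refine h.of_eq (fun s t => ?_)
  exact Tm.ofCode_code (Tm.add s t)

theorem primrec_sh : Primrec₂ Tm.sh := by
  have h : Primrec₂ (fun s t : Tm => Tm.ofCode (3 * Nat.pair s.code t.code + 3)) :=
    primrec_ofCode.comp (Primrec.nat_add.comp (Primrec.nat_mul.comp (Primrec.const 3)
      (Primrec₂.natPair.comp (primrec_code.comp Primrec.fst) (primrec_code.comp Primrec.snd)))
      (Primrec.const 3))
  refine h.of_eq (fun s t => ?_)
  exact Tm.ofCode_code (Tm.sh s t)

/-- The equation expressing an atomic constraint (junk for inequalities). -/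
def conv (c : Cstr ℕ) : Tm × Tm :=
  Sum.casesOn c (fun t => (Tm.var t.1, Tm.add (Tm.var t.2.1) (Tm.var t.2.2)))
    (fun c => Sum.casesOn c (fun t => (Tm.var t.1, Tm.sh (Tm.var t.2.1) (Tm.var t.2.2)))
      (fun c => Sum.casesOn c (fun t => (Tm.var t.1, Tm.var t.2)) (fun i => (Tm.var i, Tm.one))))

theorem conv_primrec : Primrec conv := by
  have a1 : Primrec (fun t : ℕ × ℕ × ℕ => (Tm.var t.1, Tm.add (Tm.var t.2.1) (Tm.var t.2.2))) :=
    (primrec_var.comp Primrec.fst).pair (primrec_add.comp
      (primrec_var.comp (Primrec.fst.comp Primrec.snd))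
      (primrec_var.comp (Primrec.snd.comp Primrec.snd)))
  have a2 : Primrec (fun t : ℕ × ℕ × ℕ => (Tm.var t.1, Tm.sh (Tm.var t.2.1) (Tm.var t.2.2))) :=
    (primrec_var.comp Primrec.fst).pair (primrec_sh.comp
      (primrec_var.comp (Primrec.fst.comp Primrec.snd))
      (primrec_var.comp (Primrec.snd.comp Primrec.snd)))
  have a3 : Primrec (fun t : ℕ × ℕ => (Tm.var t.1, Tm.var t.2)) :=
    (primrec_var.comp Primrec.fst).pair (primrec_var.comp Primrec.snd)
  have a4 : Primrec (fun i : ℕ => (Tm.var i, Tm.one)) := primrec_var.pair (Primrec.const _)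
  have b3 : Primrec (fun c : (ℕ × ℕ) ⊕ ℕ =>
      (Sum.casesOn c (fun t => (Tm.var t.1, Tm.var t.2)) (fun i => (Tm.var i, Tm.one)) :
        Tm × Tm)) :=
    Primrec.sumCasesOn Primrec.id (a3.comp Primrec.snd).to₂ (a4.comp Primrec.snd).to₂
  have b2 : Primrec (fun c : (ℕ × ℕ × ℕ) ⊕ (ℕ × ℕ) ⊕ ℕ =>
      (Sum.casesOn c (fun t => (Tm.var t.1, Tm.sh (Tm.var t.2.1) (Tm.var t.2.2)))
      (fun c => Sum.casesOn c (fun t => (Tm.var t.1, Tm.var t.2)) (fun i => (Tm.var i, Tm.one))) :
        Tm × Tm)) :=
    Primrec.sumCasesOn Primrec.id (a2.comp Primrec.snd).to₂ (b3.comp Primrec.snd).to₂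
  exact Primrec.sumCasesOn Primrec.id (a1.comp Primrec.snd).to₂ (b2.comp Primrec.snd).to₂

/-- **The Diophantine problem for `⟨ℕ_{>0}; +, x * 2 ^ y, ≤, 1⟩` is undecidable.** -/
theorem result : ¬ ComputablePred Solvable := by
  intro h
  refine undecidable (fun L => Solvable (L.map conv)) ?_ ?_
  · intro L hL
    unfold Solvable
    refine exists_congr fun v => and_congr_right fun _ => ?_
    constructor
    · intro h1 c hc
      have h2 := h1 (conv c) (List.mem_map_of_mem hc)
      rcases c with c | c | c | c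
      · exact h2
      · exact h2
      · exact absurd (hL _ hc) (fun h => h)
      · exact h2
    · intro h1 e he
      rw [List.mem_map] at he
      obtain ⟨c, hc, rfl⟩ := he
      have h2 := h1 c hc
      rcases c with c | c | c | c
      · exact h2
      · exact h2
      · exact absurd (hL _ hc) (fun h => h)
      · exact h2
  · exact ComputablePred.computable_of_manyOneReducible (q := Solvable)
      ⟨fun L => L.map conv,
        (Primrec.list_map Primrec.id (conv_primrec.comp Primrec.snd).to₂).to_comp,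
        fun _ => Iff.rfl⟩ h

end Pool.Agent.Results.MP_4f56fb_lc.DiophantineProblem
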